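import Mathlib
import Pool.Agent.helper22.OB.SpecD

set_option autoImplicit false

namespace Pool.Agent.OB

open Pool.Agent.helper58.DC Pool.Agent.DI Pool.Agent.GR

theorem DG1_mem {G : Type} [Group G] (y a : G) : y ∈ conjugatesOf a ↔ IsConj a y := Iff.rfl

/-- Sylow: `D` is a Sylow subgroup of `C`, `Q` a `p`-subgroup of `C` which is at least as large -/
theorem DG1_conj (p : ℕ) [Fact p.Prime] {G : Type} [Group G] [Finite G] (C D Q : Subgroup G)
    (hD : D ≤ C) (hQ : Q ≤ C) (hDp : IsPGroup p D) (hQp : IsPGroup p Q)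
    (hc : Nat.card D = pp p C) (hle : Nat.card D ≤ Nat.card Q) :
    ∃ c : G, c ∈ C ∧ ∀ d ∈ D, c * d * c⁻¹ ∈ Q := by
  have hD' : IsPGroup p (D.subgroupOf C) := hDp.comap_subtype
  have hQ' : IsPGroup p (Q.subgroupOf C) := hQp.comap_subtype
  obtain ⟨T, hT⟩ := hD'.exists_le_sylow
  obtain ⟨S, hS⟩ := hQ'.exists_le_sylow
  obtain ⟨c, hcc⟩ := MulAction.exists_smul_eq C T S
  have hcardS : Nat.card (S : Subgroup C) = pp p C := by
    unfold pp
    rw [← Nat.factorization_def _ (Fact.out : p.Prime)]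
    exact S.card_eq_multiplicity
  have hcardQ : Nat.card (Q.subgroupOf C) = Nat.card Q :=
    Nat.card_congr (Subgroup.subgroupOfEquivOfLe hQ).toEquiv
  have hSQ : Q.subgroupOf C = (S : Subgroup C) := by
    refine Subgroup.eq_of_le_of_card_ge hS ?_
    rw [hcardS, hcardQ, ← hc]
    exact hle
  refine ⟨c, c.2, fun d hd => ?_⟩
  have h1 : (⟨d, hD hd⟩ : C) ∈ (T : Subgroup C) := hT (by rw [Subgroup.mem_subgroupOf]; exact hd)
  have h2 : c * ⟨d, hD hd⟩ * c⁻¹ ∈ (S : Subgroup C) := by
    rw [← hcc, Sylow.coe_subgroup_smul]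
    have h3 := Subgroup.smul_mem_pointwise_smul _ (MulAut.conj c) _ h1
    rwa [MulAut.smul_def, MulAut.conj_apply] at h3
  rw [← hSQ, Subgroup.mem_subgroupOf] at h2
  exact h2

/-- a Sylow subgroup of `C` as a subgroup of `G` -/
theorem DG1_syl (p : ℕ) [Fact p.Prime] {G : Type} [Group G] [Finite G] (C : Subgroup G) :
    ∃ Q : Subgroup G, Q ≤ C ∧ IsPGroup p Q ∧ Nat.card Q = pp p C := by
  let S : Sylow p C := default
  refine ⟨(S : Subgroup C).map C.subtype, Subgroup.map_subtype_le _, S.isPGroup'.map _, ?_⟩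
  have h1 : Nat.card ((S : Subgroup C).map C.subtype) = Nat.card (S : Subgroup C) :=
    Nat.card_congr ((S : Subgroup C).equivMapOfInjective _ C.subtype_injective).symm.toEquiv
  rw [h1]
  unfold pp
  rw [← Nat.factorization_def _ (Fact.out : p.Prime)]
  exact S.card_eq_multiplicity

/-- the central character as a sum over the conjugacy classes -/
theorem DG1_decomp {G : Type} [Group G] [Finite G] (χ f : G → ℂ)
    (hf : ∀ x y, f (y * x * y⁻¹) = f x) :
    cc χ f = ∑ᶠ c : ConjClasses G, f (Quotient.out c) * omega χ (Quotient.out c) := by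
  classical
  have : Fintype G := Fintype.ofFinite G
  have : Fintype (ConjClasses G) := Fintype.ofFinite _
  unfold cc omega
  rw [finsum_eq_sum_of_fintype, finsum_eq_sum_of_fintype,
    ← Finset.sum_fiberwise (s := Finset.univ) (g := fun y : G => ConjClasses.mk y), Finset.sum_div]
  refine Finset.sum_congr rfl fun c _ => ?_
  have hc : ConjClasses.mk (Quotient.out c : G) = c := Quotient.out_eq c
  have hmem : ∀ y : G, ConjClasses.mk y = c ↔ y ∈ conjugatesOf (Quotient.out c : G) := by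
    intro y
    rw [DG1_mem, ← ConjClasses.mk_eq_mk_iff_isConj, hc]
    exact eq_comm
  have e1 : ∑ᶠ x ∈ conjugatesOf (Quotient.out c : G), χ x =
      ∑ y ∈ Finset.univ.filter (fun y : G => ConjClasses.mk y = c), χ y := by
    refine finsum_mem_eq_sum_of_inter_support_eq _ ?_
    ext y
    simp only [Set.mem_inter_iff, Finset.coe_filter, Finset.mem_univ, true_and, Set.mem_ofPred_eq]
    rw [hmem y]
  rw [e1, ← mul_div_assoc, Finset.mul_sum]
  congr 1
  refine Finset.sum_congr rfl fun y hy => ?_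
  rw [Finset.mem_filter] at hy
  have h1 := (hmem y).1 hy.2
  rw [DG1_mem, isConj_iff] at h1
  obtain ⟨t, ht⟩ := h1
  rw [← ht, hf]

theorem DG1_cv_cls {G : Type} [Group G] [Finite G] (z w : G → ℂ)
    (hz : ∀ x y, z (y * x * y⁻¹) = z x) (hw : ∀ x y, w (y * x * y⁻¹) = w x) (x y : G) :
    cv z w (y * x * y⁻¹) = cv z w x := by
  unfold cv
  rw [← finsum_comp_equiv (MulAut.conj y).toEquiv]
  refine finsum_congr fun u => ?_
  have h1 : z ((MulAut.conj y).toEquiv u) = z u := by
    show z (y * u * y⁻¹) = z u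
    exact hz u y
  have h2 : w (((MulAut.conj y).toEquiv u)⁻¹ * (y * x * y⁻¹)) = w (u⁻¹ * x) := by
    show w ((y * u * y⁻¹)⁻¹ * (y * x * y⁻¹)) = w (u⁻¹ * x)
    rw [← hw (u⁻¹ * x) y]
    congr 1
    group
  rw [h1, h2]

theorem DG1 (hBRP : BRP_stmt) (hC3 : C3_stmt) (hCCI : CCI_stmt) (hTI : TI_stmt) : DG1_stmt := by
  intro p M hS G _ _ χ hχ D x hDx w hw hwI hwM
  classical
  have : Fact p.Prime := ⟨hS.pr⟩
  have hχT : χ ∈ IrrOn (⊤ : Subgroup G) := (hTI G χ).2 hχ
  obtain ⟨hlin, hmul, hint⟩ := hCCI G ⊤ χ hχT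
  obtain ⟨-, hom, -, homI⟩ := hC3 G
  set k : G → ℂ := fun u => if u ∈ conjugatesOf x then 1 else 0 with hk
  have hkc : ∀ u y : G, k (y * u * y⁻¹) = k u := by
    intro u y
    have h1 : (y * u * y⁻¹ ∈ conjugatesOf x) ↔ (u ∈ conjugatesOf x) := by
      rw [DG1_mem, DG1_mem]
      have h2 : IsConj u (y * u * y⁻¹) := isConj_iff.2 ⟨y, rfl⟩
      exact ⟨fun h => h.trans h2.symm, fun h => h.trans h2⟩
    simp only [hk, h1]
  have hkI : ∀ u : G, IntAt M (k u) := by
    intro u
    simp only [hk]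
    split_ifs
    · exact IntAt.one hS
    · exact IntAt.zero hS
  have hom1 : omega χ x = cc χ k := (hom χ x).1
  have hCFk : CF ⊤ k := ⟨fun h _ u => hkc u h, fun u hu => absurd (Subgroup.mem_top u) hu⟩
  have hCFw : CF ⊤ w := ⟨fun h _ u => hw u h, fun u hu => absurd (Subgroup.mem_top u) hu⟩
  have hprod : cc χ (cv k w) = omega χ x * cc χ w := by rw [hmul k w hCFk hCFw, hom1]
  have hI1 : IntAt M (omega χ x) := IntAt.of_isIntegral hS (homI ⊤ χ hχT x)
  have hI2 : IntAt M (cc χ w) :=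
    (hint p M hS w (fun h _ u => hw u h)).1 hwI
  -- the claim
  have claim : ∀ y : G, ¬ InM M (omega χ y) → InM M (cv k w y) := by
    intro y hy
    have hmin := hDx.min y hy
    obtain ⟨Q, hQC, hQp, hQc⟩ := DG1_syl p (Subgroup.centralizer ({y} : Set G))
    have hyQ : y ∈ cz Q := by
      rw [Subgroup.mem_centralizer_iff]
      intro q hq
      have := Subgroup.mem_centralizer_singleton_iff.1 (hQC hq)
      exact this
    have hb := hBRP p M hS G Q hQp k w hkc hw hkI hwI y hyQ
    have h2 : InM M (cv (fun x => if x ∈ cz Q then k x else 0)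
        (fun x => if x ∈ cz Q then w x else 0) y) := by
      unfold cv
      refine InM.finsum hS fun u => ?_
      beta_reduce
      by_cases hu : u ∈ cz Q
      swap
      · rw [if_neg hu, zero_mul]; exact InM.zero hS
      by_cases hv : u⁻¹ * y ∈ cz Q
      swap
      · rw [if_neg hv, mul_zero]; exact InM.zero hS
      by_cases hux : u ∈ conjugatesOf x
      swap
      · have : k u = 0 := by simp only [hk]; rw [if_neg hux]
        rw [if_pos hu, this, zero_mul]; exact InM.zero hS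
      rw [if_pos hv]
      refine InM.mul_left hS ?_ ?_
      · rw [if_pos hu]; exact hkI u
      -- `u = h x h⁻¹`
      rw [DG1_mem, isConj_iff] at hux
      obtain ⟨h, hh⟩ := hux
      set Q' : Subgroup G := Q.map (MulAut.conj h⁻¹).toMonoidHom with hQ'
      have hQ'mem : ∀ a : G, a ∈ Q' → h * a * h⁻¹ ∈ Q := by
        intro a ha
        obtain ⟨q, hq, hqa⟩ := Subgroup.mem_map.1 ha
        have hqa' : h⁻¹ * q * h⁻¹⁻¹ = a := hqa
        rw [← hqa']
        have : h * (h⁻¹ * q * h⁻¹⁻¹) * h⁻¹ = q := by group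
        rw [this]; exact hq
      have hQ'card : Nat.card Q' = Nat.card Q :=
        Nat.card_congr (Q.equivMapOfInjective _ (MulAut.conj h⁻¹).injective).symm.toEquiv
      have hQ'C : Q' ≤ Subgroup.centralizer ({x} : Set G) := by
        intro a ha
        rw [Subgroup.mem_centralizer_singleton_iff]
        have h3 := Subgroup.mem_centralizer_iff.1 hu _ (hQ'mem a ha)
        rw [← hh] at h3
        have h4 : h * (a * x) * h⁻¹ = h * (x * a) * h⁻¹ := by
          calc h * (a * x) * h⁻¹ = h * a * h⁻¹ * (h * x * h⁻¹) := by group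
            _ = h * x * h⁻¹ * (h * a * h⁻¹) := h3
            _ = h * (x * a) * h⁻¹ := by group
        exact mul_left_cancel (mul_right_cancel h4)
      obtain ⟨c, -, hcD⟩ := DG1_conj p (Subgroup.centralizer ({x} : Set G)) D Q' hDx.le hQ'C
        hDx.pgrp (hQp.map _) hDx.card (by rw [hQ'card, hQc]; exact hmin)
      -- conjugate `u⁻¹ y` into `cz D`
      have h5 : (h * c)⁻¹ * (u⁻¹ * y) * (h * c)⁻¹⁻¹ ∈ cz D := by
        rw [Subgroup.mem_centralizer_iff]
        intro d hd
        have h6 := hQ'mem _ (hcD d hd)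
        have h7 := Subgroup.mem_centralizer_iff.1 hv _ h6
        calc d * ((h * c)⁻¹ * (u⁻¹ * y) * (h * c)⁻¹⁻¹)
            = (h * c)⁻¹ * (h * (c * d * c⁻¹) * h⁻¹ * (u⁻¹ * y)) * (h * c) := by group
          _ = (h * c)⁻¹ * (u⁻¹ * y * (h * (c * d * c⁻¹) * h⁻¹)) * (h * c) := by rw [h7]
          _ = (h * c)⁻¹ * (u⁻¹ * y) * (h * c)⁻¹⁻¹ * d := by group
      have h8 := hwM _ h5
      rw [hw] at h8
      exact h8
    have h3 := InM.add hS hb h2
    rwa [sub_add_cancel] at h3
  have hcvI : ∀ y, IntAt M (cv k w y) := by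
    intro y
    unfold cv
    exact IntAt.finsum hS fun u => (hkI u).mul hS (hwI _)
  have hsum : InM M (cc χ (cv k w)) := by
    rw [DG1_decomp χ (cv k w) (DG1_cv_cls k w hkc hw)]
    refine InM.finsum hS fun c => ?_
    by_cases hc : InM M (omega χ (Quotient.out c))
    · exact InM.mul_left hS (hcvI _) hc
    · exact InM.mul_right hS (claim _ hc) (IntAt.of_isIntegral hS (homI ⊤ χ hχT _))
  rw [hprod] at hsum
  rcases InM.or hS hI1 hI2 hsum with h | h
  · exact absurd h hDx.ne
  · exact h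

end Pool.Agent.OB
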