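import Pool.Agent.helper12.OB.SpecA

set_option autoImplicit false

namespace Pool.Agent.OB

open Pool.Agent.helper58.DC Pool.Agent.DI Pool.Agent.GR

theorem WCD_comm {G : Type} [Group G] (H : Subgroup G) (n : G) (hn : n ∈ cz H) :
    ∀ k ∈ H ⊔ Subgroup.zpowers n, k * n = n * k := by
  have h : H ⊔ Subgroup.zpowers n ≤ Subgroup.centralizer {n} := by
    refine sup_le ?_ ?_
    · intro x hx
      rw [Subgroup.mem_centralizer_singleton_iff]
      have := Subgroup.mem_centralizer_iff.1 hn x hx
      first
        | exact this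
        | exact this.symm
    · rw [Subgroup.zpowers_le, Subgroup.mem_centralizer_singleton_iff]
  intro k hk
  have := Subgroup.mem_centralizer_singleton_iff.1 (h hk)
  first
    | exact this
    | exact this.symm

theorem WCD (hFRW : FRW_stmt) (hWCJ : WCJ_stmt) : WCD_stmt := by
  classical
  intro G _ _ p _ H
  have hle : cz H ≤ nz H := by
    intro x hx
    rw [Subgroup.mem_normalizer_iff]
    intro y
    have hx' := Subgroup.mem_centralizer_iff.1 hx
    constructor
    · intro hy
      have e : x * y * x⁻¹ = y := by rw [← hx' y hy]; group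
      show x * y * x⁻¹ ∈ H
      rw [e]; exact hy
    · intro hy
      have hy' : x * y * x⁻¹ ∈ H := hy
      have e := hx' _ hy'
      have e2 : y = x⁻¹ * (x * y * x⁻¹) * x := by group
      have e3 : x⁻¹ * (x * y * x⁻¹) * x = x * y * x⁻¹ := by
        rw [mul_assoc, e]; group
      have e4 : y = x * y * x⁻¹ := e2.trans e3
      show y ∈ H
      rw [e4]; exact hy'
  have h1 := hFRW G p H (cz H) hle
  have h2 : ∑ᶠ n ∈ {n : G | n ∈ cz H ∧ PEl p n}, W p (H ⊔ Subgroup.zpowers n) = W p H := by
    rw [finsum_eq_single _ (1 : G)]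
    · have hmem : (1 : G) ∈ {n : G | n ∈ cz H ∧ PEl p n} := ⟨Subgroup.one_mem _, 0, by simp⟩
      rw [finsum_eq_if, if_pos hmem]
      simp
    · intro n hn
      by_cases hmem : n ∈ {n : G | n ∈ cz H ∧ PEl p n}
      · rw [finsum_eq_if, if_pos hmem]
        exact (hWCJ G p).2.2 _ n (Subgroup.mem_sup_right (Subgroup.mem_zpowers n))
          (WCD_comm H n hmem.1) hmem.2 hn
      · rw [finsum_eq_if, if_neg hmem]
  rw [h2] at h1
  exact h1

end Pool.Agent.OB
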